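import Pool.Agent.W770.KP.Stm

/-! # Interpolation with multiplicities, large degree -/

set_option autoImplicit false

open scoped Classical

namespace Pool.Agent.W120.KP

open Pool.Agent.W770.KP MvPolynomial

section
variable {F : Type} [Field F] {m : ℕ}

theorem shift_add (z : Fin m → F) (P Q : MvPolynomial (Fin m) F) :
    shift z (P + Q) = shift z P + shift z Q := map_add _ P Q

theorem shift_mul (z : Fin m → F) (P Q : MvPolynomial (Fin m) F) :
    shift z (P * Q) = shift z P * shift z Q := map_mul _ P Q

theorem shift_C (z : Fin m → F) (a : F) : shift z (C a) = C a := by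
  unfold shift
  exact bind₁_C_right _ a

theorem shift_X (z : Fin m → F) (i : Fin m) : shift z (X i) = X i + C (z i) := by
  unfold shift
  exact bind₁_X_right _ i

/-- the constant term of the shifted polynomial -/
theorem const_shift (z : Fin m → F) (P : MvPolynomial (Fin m) F) :
    constantCoeff (shift z P) = eval z P := by
  induction P using MvPolynomial.induction_on with
  | C a => rw [shift_C, constantCoeff_C, eval_C]
  | add p q hp hq => rw [shift_add, map_add, map_add, hp, hq]
  | mul_X p i hp =>
    rw [shift_mul, map_mul, map_mul, hp, shift_X, map_add, constantCoeff_X, constantCoeff_C,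
      eval_X, zero_add]

variable [Fintype F]

theorem shift_T (z : Fin m → F) (i : Fin m) :
    shift z (X i ^ Fintype.card F - X i) = X i ^ Fintype.card F - X i := by
  have h1 : shift z (X i ^ Fintype.card F - X i) =
      (shift z (X i)) ^ Fintype.card F - shift z (X i) := by
    unfold shift
    rw [map_sub, map_pow]
  rw [h1, shift_X]
  obtain ⟨p, hp⟩ := CharP.exists F
  obtain ⟨n, hpr, hcard⟩ := FiniteField.card F p
  have := Fact.mk hpr
  have h2 : (X i + C (z i) : MvPolynomial (Fin m) F) ^ Fintype.card F =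
      X i ^ Fintype.card F + C (z i) := by
    have h3 : (X i + C (z i) : MvPolynomial (Fin m) F) ^ Fintype.card F =
        X i ^ Fintype.card F + C (z i) ^ Fintype.card F := by
      rw [hcard]
      exact add_pow_char_pow ..
    rw [h3, ← map_pow, FiniteField.pow_card]
  rw [h2]
  ring

/-- the polynomial of `z` and `β` -/
noncomputable def Ap (z : Fin m → F) (β : Fin m →₀ ℕ) : MvPolynomial (Fin m) F :=
  (∏ i, (X i ^ Fintype.card F - X i) ^ β i) * indicator z

theorem fac (β : Fin m →₀ ℕ) :
    (∏ i, (X i ^ Fintype.card F - X i : MvPolynomial (Fin m) F) ^ β i) =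
      monomial β 1 * ∏ i, (X i ^ (Fintype.card F - 1) - 1) ^ β i := by
  have hq : 1 ≤ Fintype.card F := Fintype.card_pos
  rw [monomial_eq, C_1, one_mul, Finsupp.prod_fintype _ _ (fun i => pow_zero _),
    ← Finset.prod_mul_distrib]
  refine Finset.prod_congr rfl fun i _ => ?_
  rw [← mul_pow]
  congr 1
  rw [mul_sub, mul_one, ← pow_succ', Nat.sub_add_cancel hq]

theorem eq_of_le {β β' : Fin m →₀ ℕ} (h : β' ≤ β) (hd : β.degree ≤ β'.degree) : β' = β := by
  have h1 : β = β' + (β - β') := (add_tsub_cancel_of_le h).symm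
  have h2 : β.degree = β'.degree + (β - β').degree := by
    conv_lhs => rw [h1]
    exact map_add _ _ _
  have h3 : (β - β').degree = 0 := by omega
  rw [Finsupp.degree_eq_zero_iff] at h3
  rw [h3, add_zero] at h1
  exact h1.symm

theorem coeff_shift (z z' : Fin m → F) (β β' : Fin m →₀ ℕ) (h : β.degree ≤ β'.degree) :
    (shift z (Ap z' β')).coeff β =
      if β' = β ∧ z = z' then ∏ i, (-1 : F) ^ β i else 0 := by
  have h1 : shift z (Ap z' β') = monomial β' 1 *
      ((∏ i, (X i ^ (Fintype.card F - 1) - 1) ^ β' i) * shift z (indicator z')) := by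
    unfold Ap
    rw [shift_mul, ← mul_assoc, ← fac]
    congr 1
    have h2 : shift z (∏ i, (X i ^ Fintype.card F - X i : MvPolynomial (Fin m) F) ^ β' i) =
        ∏ i, (shift z (X i ^ Fintype.card F - X i)) ^ β' i := by
      unfold shift
      rw [map_prod]
      exact Finset.prod_congr rfl fun i _ => map_pow _ _ _
    rw [h2]
    exact Finset.prod_congr rfl fun i _ => by rw [shift_T]
  rw [h1, coeff_monomial_mul']
  by_cases hb : β' = β
  · subst hb
    rw [if_pos le_rfl, one_mul, tsub_self, ← constantCoeff_eq, map_mul, const_shift, map_prod]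
    have hq : Fintype.card F - 1 ≠ 0 := by
      have := Fintype.one_lt_card (α := F)
      omega
    have h3 : ∀ i : Fin m, constantCoeff
        ((X i ^ (Fintype.card F - 1) - 1 : MvPolynomial (Fin m) F) ^ β' i) = (-1 : F) ^ β' i := by
      intro i
      rw [map_pow, map_sub, map_pow, constantCoeff_X, zero_pow hq, map_one, zero_sub]
    rw [Finset.prod_congr rfl fun i _ => h3 i]
    by_cases hz : z = z'
    · subst hz
      rw [eval_indicator_apply_eq_one, mul_one, if_pos ⟨rfl, rfl⟩]
    · rw [eval_indicator_apply_eq_zero z z' hz, mul_zero, if_neg (fun h => hz h.2)]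
  · rw [if_neg (fun h2 => hb (eq_of_le h2 h)), if_neg (fun h => hb h.1)]

theorem deg_ind (z : Fin m → F) :
    (indicator z : MvPolynomial (Fin m) F).totalDegree ≤ m * (Fintype.card F - 1) := by
  unfold indicator
  refine (totalDegree_finsetProd _ _).trans ?_
  have h : ∀ i ∈ (Finset.univ : Finset (Fin m)),
      (1 - (X i - C (z i)) ^ (Fintype.card F - 1) : MvPolynomial (Fin m) F).totalDegree ≤
        Fintype.card F - 1 := by
    intro i _
    refine (totalDegree_sub _ _).trans ?_
    rw [totalDegree_one]
    refine max_le (Nat.zero_le _) ((totalDegree_pow _ _).trans ?_)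
    have h1 : (X i - C (z i) : MvPolynomial (Fin m) F).totalDegree ≤ 1 := by
      refine (totalDegree_sub _ _).trans ?_
      rw [totalDegree_C, totalDegree_X]
      exact max_le le_rfl (Nat.zero_le _)
    calc _ ≤ (Fintype.card F - 1) * 1 := Nat.mul_le_mul_left _ h1
      _ = _ := mul_one _
  refine (Finset.sum_le_sum h).trans ?_
  rw [Finset.sum_const, Finset.card_univ, Fintype.card_fin, smul_eq_mul]

theorem deg_Ap (z : Fin m → F) (β : Fin m →₀ ℕ) :
    (Ap z β).totalDegree ≤ Fintype.card F * β.degree + m * (Fintype.card F - 1) := by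
  unfold Ap
  refine (totalDegree_mul _ _).trans (Nat.add_le_add ?_ (deg_ind z))
  refine (totalDegree_finsetProd _ _).trans ?_
  have h : ∀ i ∈ (Finset.univ : Finset (Fin m)),
      ((X i ^ Fintype.card F - X i : MvPolynomial (Fin m) F) ^ β i).totalDegree ≤
        Fintype.card F * β i := by
    intro i _
    refine (totalDegree_pow _ _).trans ?_
    have h1 : (X i ^ Fintype.card F - X i : MvPolynomial (Fin m) F).totalDegree ≤
        Fintype.card F := by
      refine (totalDegree_sub _ _).trans ?_
      rw [totalDegree_X, totalDegree_X_pow]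
      exact max_le le_rfl Fintype.card_pos
    rw [mul_comm (Fintype.card F)]
    exact Nat.mul_le_mul_left _ h1
  refine (Finset.sum_le_sum h).trans ?_
  rw [← Finset.mul_sum, Finsupp.degree_eq_sum]

end

/-- multi-index of a function -/
noncomputable def mn {m a : ℕ} (β : Fin m → Fin a) : Fin m →₀ ℕ :=
  Finsupp.equivFunOnFinite.symm fun i => (β i : ℕ)

theorem mn_inj {m a : ℕ} : Function.Injective (mn : (Fin m → Fin a) → (Fin m →₀ ℕ)) := by
  intro β β' h
  have h1 := Finsupp.equivFunOnFinite.symm.injective h
  funext i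
  exact Fin.ext (congrFun h1 i)

theorem mn_deg {m a : ℕ} (β : Fin m → Fin a) : (mn β).degree + m ≤ m * a := by
  rw [Finsupp.degree_eq_sum]
  have h : ∑ i, ((mn β) i + 1) ≤ ∑ _i : Fin m, a := by
    refine Finset.sum_le_sum fun i _ => ?_
    exact (β i).isLt
  rw [Finset.sum_add_distrib] at h
  simpa using h

theorem ilmb : S_ILMB := by
  intro m hm F _ _ Z e he
  set q := Fintype.card F with hq
  have hq0 : 0 < q := Fintype.card_pos
  set a := e / q / m with ha
  have h1 : m ≤ e / q := (Nat.le_div_iff_mul_le hq0).2 he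
  have ha1 : 1 ≤ a := (Nat.le_div_iff_mul_le hm).2 (by omega)
  have h2 : m * a ≤ e / q := Nat.mul_div_le _ _
  have h3 : q * (e / q) ≤ e := Nat.mul_div_le _ _
  have h4 : q * (m * a) ≤ e := (Nat.mul_le_mul_left q h2).trans h3
  let ι := {z // z ∈ Z} × (Fin m → Fin a)
  let eqv : ι ≃ Fin (Fintype.card ι) := Fintype.equivFin ι
  have hcard : Fintype.card ι = Z.card * a ^ m := by
    simp only [ι]
    rw [Fintype.card_prod, Fintype.card_coe, Fintype.card_fun, Fintype.card_fin, Fintype.card_fin]
  refine ⟨Fintype.card ι, fun s => Ap (eqv.symm s).1.1 (mn (eqv.symm s).2), ?_, ?_, ?_⟩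
  · intro s
    refine (deg_Ap _ _).trans ?_
    have h5 := mn_deg (eqv.symm s).2
    have h6 : q * ((mn (eqv.symm s).2).degree + m) ≤ q * (m * a) := Nat.mul_le_mul_left q h5
    have h7 : m * (q - 1) ≤ q * m := by
      rw [mul_comm q m]
      exact Nat.mul_le_mul_left m (Nat.sub_le _ _)
    rw [mul_add] at h6
    calc _ ≤ q * (mn (eqv.symm s).2).degree + q * m := Nat.add_le_add_left h7 _
      _ ≤ e := h6.trans h4
  · rw [hcard]
    push_cast
    refine mul_le_mul_of_nonneg_left ?_ (Nat.cast_nonneg _)
    have hm' : (0 : ℝ) < m := by exact_mod_cast hm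
    have hq' : (0 : ℝ) < q := by exact_mod_cast hq0
    refine pow_le_pow_left₀ (by positivity) ?_ m
    rw [div_le_iff₀ (by positivity)]
    have h8 : e < q * (e / q + 1) := Nat.lt_mul_div_succ e hq0
    have h9 : e / q < m * (a + 1) := Nat.lt_mul_div_succ (e / q) hm
    have h10 : e / q + 1 ≤ m * (2 * a) := by
      have : m * (a + 1) ≤ m * (2 * a) := Nat.mul_le_mul_left m (by omega)
      omega
    have h11 : e + 1 ≤ q * (m * (2 * a)) := by
      have : q * (e / q + 1) ≤ q * (m * (2 * a)) := Nat.mul_le_mul_left q h10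
      omega
    have h12 : ((e : ℝ) + 1) ≤ (q : ℝ) * ((m : ℝ) * (2 * (a : ℝ))) := by exact_mod_cast h11
    calc (e : ℝ) + 1 ≤ (q : ℝ) * ((m : ℝ) * (2 * (a : ℝ))) := h12
      _ = (a : ℝ) * (2 * (m : ℝ) * (q : ℝ)) := by ring
  · intro c hc
    have key : ∀ (n : ℕ) (x : ι), (mn x.2).degree = n → c (eqv x) = 0 := by
      intro n
      induction n using Nat.strong_induction_on with
      | _ n ih =>
      intro x hx
      have hdx := mn_deg x.2
      have h5 := hc x.1.1 x.1.2 (mn x.2) (by
        have : (mn x.2).degree ≤ m * a := by omega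
        calc (mn x.2).degree * q ≤ m * a * q := Nat.mul_le_mul_right q this
          _ = q * (m * a) := mul_comm _ _
          _ ≤ e := h4)
      have h6 : shift x.1.1 (lc (fun s => Ap (eqv.symm s).1.1 (mn (eqv.symm s).2)) c) =
          ∑ y : ι, C (c (eqv y)) * shift x.1.1 (Ap y.1.1 (mn y.2)) := by
        unfold lc
        rw [← Equiv.sum_comp eqv]
        have h7 : shift x.1.1 (∑ y : ι, C (c (eqv y)) *
            Ap (eqv.symm (eqv y)).1.1 (mn (eqv.symm (eqv y)).2)) =
            ∑ y : ι, shift x.1.1 (C (c (eqv y)) *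
              Ap (eqv.symm (eqv y)).1.1 (mn (eqv.symm (eqv y)).2)) := by
          unfold shift
          rw [map_sum]
        rw [h7]
        refine Finset.sum_congr rfl fun y _ => ?_
        rw [shift_mul, shift_C, Equiv.symm_apply_apply]
      rw [h6, coeff_sum] at h5
      rw [Finset.sum_eq_single x] at h5
      · rw [coeff_C_mul, coeff_shift _ _ _ _ le_rfl, if_pos ⟨rfl, rfl⟩] at h5
        have h8 : (∏ i, (-1 : F) ^ (mn x.2) i) ≠ 0 :=
          Finset.prod_ne_zero_iff.2 fun i _ => pow_ne_zero _ (neg_ne_zero.2 one_ne_zero)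
        exact (mul_eq_zero.1 h5).resolve_right h8
      · intro y _ hyx
        rw [coeff_C_mul]
        by_cases hd : (mn y.2).degree < n
        · rw [ih _ hd y rfl, zero_mul]
        · rw [coeff_shift _ _ _ _ (by omega), if_neg, mul_zero]
          rintro ⟨e1, e2⟩
          apply hyx
          exact Prod.ext (Subtype.ext e2.symm) (mn_inj e1)
      · intro h
        exact absurd (Finset.mem_univ x) h
    funext s
    have := key _ (eqv.symm s) rfl
    rwa [Equiv.apply_symm_apply] at this

end Pool.Agent.W120.KP
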